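import Pool.Agent.Helper89K9.MA.Stm

/-!
# Project MA: the leaf CNT
-/

set_option autoImplicit false

namespace Pool.Agent.Helper26K9.MA

open Finset
open Pool.Agent.Helper89K9.MA (S_PZ S_CNT)

namespace CntL

/-- the rows of a set -/
def rows {n K : ℕ} (W : Finset (Fin n × Fin K)) (r : Fin n) : Finset (Fin K) :=
  univ.filter fun k => (r, k) ∈ W

lemma rows_inj {n K : ℕ} : Function.Injective (rows (n := n) (K := K)) := by
  intro W W' h
  ext ⟨r, k⟩
  have h1 := congrFun h r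
  have h2 : k ∈ rows W r ↔ k ∈ rows W' r := by rw [h1]
  simpa [rows] using h2

lemma card_rows {n K : ℕ} (W : Finset (Fin n × Fin K)) (r : Fin n) :
    (W.filter fun c => c.1 = r).card = (rows W r).card := by
  have h1 : W.filter (fun c => c.1 = r) = (rows W r).map ⟨fun k => (r, k), fun a b h => by
      simpa using h⟩ := by
    ext ⟨s, k⟩
    simp only [mem_filter, mem_map, rows, mem_univ, true_and]
    constructor
    · rintro ⟨h1, h2⟩
      subst h2
      exact ⟨k, h1, rfl⟩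
    · rintro ⟨k', h1, h2⟩
      have h3 : (r, k') = (s, k) := h2
      rw [Prod.mk.injEq] at h3
      obtain ⟨h4, h5⟩ := h3
      subst h4; subst h5
      exact ⟨h1, rfl⟩
  rw [h1, card_map]

/-- the heavy sets -/
def HH (K : ℕ) : Finset (Finset (Fin K)) :=
  univ.filter fun S : Finset (Fin K) => K ≤ 2 * S.card ∧ K ≤ 4 * (2 * S.card - K) ^ 2

lemma heavy_le {n K T : ℕ} (hK : 1 ≤ K) (hT : (512 * T) ^ 2 ≤ n ^ 2 * K)
    (f : Fin n → Finset (Fin K)) (hf : ∑ r, (2 * (f r).card - K) ≤ T) :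
    256 * (univ.filter fun r => f r ∈ HH K).card ≤ n := by
  by_contra hlt
  rw [not_le] at hlt
  set R := univ.filter fun r => f r ∈ HH K with hR
  have hs1 : 1 ≤ Real.sqrt K := by
    rw [Real.one_le_sqrt]
    exact_mod_cast hK
  have hsq : Real.sqrt K ^ 2 = K := Real.sq_sqrt (Nat.cast_nonneg _)
  have h1 : ∀ r ∈ R, Real.sqrt K / 2 ≤ ((2 * (f r).card - K : ℕ) : ℝ) := by
    intro r hr
    have h2 : f r ∈ HH K := (mem_filter.1 hr).2
    have h3 : K ≤ 4 * (2 * (f r).card - K) ^ 2 := (mem_filter.1 h2).2.2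
    have h4 : (K : ℝ) ≤ 4 * ((2 * (f r).card - K : ℕ) : ℝ) ^ 2 := by exact_mod_cast h3
    have h5 : Real.sqrt K ≤ 2 * ((2 * (f r).card - K : ℕ) : ℝ) := by
      rw [Real.sqrt_le_iff]
      exact ⟨by positivity, by nlinarith⟩
    linarith
  have h2 : (R.card : ℝ) * (Real.sqrt K / 2) ≤ T := by
    calc (R.card : ℝ) * (Real.sqrt K / 2) = ∑ _r ∈ R, Real.sqrt K / 2 := by
          rw [sum_const, nsmul_eq_mul]
      _ ≤ ∑ r ∈ R, ((2 * (f r).card - K : ℕ) : ℝ) := sum_le_sum h1
      _ = ((∑ r ∈ R, (2 * (f r).card - K) : ℕ) : ℝ) := by push_cast; rfl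
      _ ≤ ((∑ r, (2 * (f r).card - K) : ℕ) : ℝ) := by
          exact_mod_cast sum_le_sum_of_subset (subset_univ R)
      _ ≤ T := by exact_mod_cast hf
  have h3 : (n : ℝ) < 256 * R.card := by exact_mod_cast hlt
  have h4 : (512 * T : ℝ) ^ 2 ≤ (n : ℝ) ^ 2 * K := by exact_mod_cast hT
  have h5 : (n : ℝ) * Real.sqrt K < 512 * T := by nlinarith
  have h6 : 0 ≤ (n : ℝ) * Real.sqrt K := by positivity
  have h7 : ((n : ℝ) * Real.sqrt K) ^ 2 < (512 * T : ℝ) ^ 2 := by
    apply pow_lt_pow_left₀ h5 h6 (by norm_num)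
  rw [mul_pow, hsq] at h7
  linarith

lemma sum_w {K : ℕ} (h : 3 * 2 ^ K ≤ 32 * (HH K).card) :
    ∑ S : Finset (Fin K), (if S ∈ HH K then (1 / 3 : ℝ) else 1) ≤ 15 / 16 * 2 ^ K := by
  have h1 : ∀ S : Finset (Fin K), (if S ∈ HH K then (1 / 3 : ℝ) else 1) =
      1 - 2 / 3 * (if S ∈ HH K then (1 : ℝ) else 0) := by
    intro S
    split_ifs <;> norm_num
  simp only [h1]
  rw [sum_sub_distrib, ← mul_sum, sum_boole, sum_const, card_univ, Fintype.card_finset,
    Fintype.card_fin, nsmul_eq_mul, mul_one]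
  have h2 : (univ.filter fun S => S ∈ HH K) = HH K := by
    ext S; simp
  rw [h2]
  push_cast
  have h3 : (3 * 2 ^ K : ℝ) ≤ 32 * (HH K).card := by exact_mod_cast h
  linarith

end CntL

open CntL

theorem cnt : S_PZ → S_CNT := by
  classical
  intro hPZ n K T hK hT
  have hH := hPZ K hK
  set A : Finset (Fin n → Finset (Fin K)) :=
    univ.filter fun f => ∑ r, (2 * (f r).card - K) ≤ T with hA
  have hcard : (univ.filter fun W : Finset (Fin n × Fin K) =>
      ∑ r, (2 * (W.filter fun c => c.1 = r).card - K) ≤ T).card ≤ A.card := by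
    apply card_le_card_of_injOn rows
    · intro W hW
      rw [mem_coe, mem_filter] at hW
      rw [mem_coe, hA, mem_filter]
      refine ⟨mem_univ _, ?_⟩
      simpa only [card_rows] using hW.2
    · exact fun W _ W' _ h => rows_inj h
  -- the count of the functions
  have hA1 : (A.card : ℝ) ≤ (129 / 128 : ℝ) ^ n * (15 / 16 * 2 ^ K) ^ n := by
    have h1 : ∀ f ∈ A, (1 : ℝ) ≤ (129 / 128 : ℝ) ^ n *
        ∏ r, (if f r ∈ HH K then (1 / 3 : ℝ) else 1) := by
      intro f hf
      have h2 := heavy_le hK hT f (mem_filter.1 hf).2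
      have h3 : ∏ r, (if f r ∈ HH K then (1 / 3 : ℝ) else 1) =
          (1 / 3) ^ (univ.filter fun r => f r ∈ HH K).card := by
        rw [prod_ite, prod_const, prod_const_one, mul_one]
      rw [h3]
      have h4 : (3 : ℝ) ≤ (129 / 128 : ℝ) ^ 256 := by
        have := one_add_mul_le_pow (a := (1 / 128 : ℝ)) (by norm_num) 256
        norm_num at this ⊢
      have h5 : (3 : ℝ) ^ (univ.filter fun r => f r ∈ HH K).card ≤ (129 / 128 : ℝ) ^ n := by
        calc (3 : ℝ) ^ (univ.filter fun r => f r ∈ HH K).card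
            ≤ ((129 / 128 : ℝ) ^ 256) ^ (univ.filter fun r => f r ∈ HH K).card :=
              pow_le_pow_left₀ (by norm_num) h4 _
          _ = (129 / 128 : ℝ) ^ (256 * (univ.filter fun r => f r ∈ HH K).card) := by
              rw [pow_mul]
          _ ≤ (129 / 128 : ℝ) ^ n := pow_le_pow_right₀ (by norm_num) h2
      rw [one_div, inv_pow, ← div_eq_mul_inv, one_le_div (by positivity)]
      exact h5
    calc (A.card : ℝ) = ∑ _f ∈ A, (1 : ℝ) := by simp
      _ ≤ ∑ f ∈ A, (129 / 128 : ℝ) ^ n * ∏ r, (if f r ∈ HH K then (1 / 3 : ℝ) else 1) :=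
          sum_le_sum h1
      _ ≤ ∑ f : Fin n → Finset (Fin K),
          (129 / 128 : ℝ) ^ n * ∏ r, (if f r ∈ HH K then (1 / 3 : ℝ) else 1) := by
          apply sum_le_sum_of_subset_of_nonneg (subset_univ _)
          intro f _ _
          apply mul_nonneg (by positivity)
          apply prod_nonneg
          intro r _
          split_ifs <;> norm_num
      _ = (129 / 128 : ℝ) ^ n *
          (∑ S : Finset (Fin K), (if S ∈ HH K then (1 / 3 : ℝ) else 1)) ^ n := by
          rw [← mul_sum, Fintype.sum_pow]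
      _ ≤ (129 / 128 : ℝ) ^ n * (15 / 16 * 2 ^ K) ^ n := by
          apply mul_le_mul_of_nonneg_left _ (by positivity)
          apply pow_le_pow_left₀ _ (sum_w hH)
          apply sum_nonneg
          intro S _
          split_ifs <;> norm_num
  have hnum : (129 / 128 * (15 / 16) : ℝ) ^ n * 2 ^ (n / 24) ≤ 1 := by
    have h1 : (129 / 128 * (15 / 16) : ℝ) ^ n ≤ (1 / 2) ^ (n / 24) := by
      calc (129 / 128 * (15 / 16) : ℝ) ^ n ≤ (129 / 128 * (15 / 16) : ℝ) ^ (24 * (n / 24)) :=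
            pow_le_pow_of_le_one (by norm_num) (by norm_num) (Nat.mul_div_le n 24)
        _ = ((129 / 128 * (15 / 16) : ℝ) ^ 24) ^ (n / 24) := by rw [pow_mul]
        _ ≤ (1 / 2) ^ (n / 24) := pow_le_pow_left₀ (by positivity) (by norm_num) _
    calc (129 / 128 * (15 / 16) : ℝ) ^ n * 2 ^ (n / 24) ≤ (1 / 2) ^ (n / 24) * 2 ^ (n / 24) :=
          mul_le_mul_of_nonneg_right h1 (by positivity)
      _ = 1 := by rw [← mul_pow]; norm_num
  have hfin : ((univ.filter fun W : Finset (Fin n × Fin K) =>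
      ∑ r, (2 * (W.filter fun c => c.1 = r).card - K) ≤ T).card : ℝ) * 2 ^ (n / 24) ≤
        2 ^ (n * K) := by
    calc _ ≤ (A.card : ℝ) * 2 ^ (n / 24) := by
          apply mul_le_mul_of_nonneg_right _ (by positivity)
          exact_mod_cast hcard
      _ ≤ ((129 / 128 : ℝ) ^ n * (15 / 16 * 2 ^ K) ^ n) * 2 ^ (n / 24) :=
          mul_le_mul_of_nonneg_right hA1 (by positivity)
      _ = ((129 / 128 * (15 / 16) : ℝ) ^ n * 2 ^ (n / 24)) * 2 ^ (n * K) := by
          rw [mul_pow, mul_pow, ← pow_mul, Nat.mul_comm K n]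
          ring
      _ ≤ 1 * 2 ^ (n * K) := mul_le_mul_of_nonneg_right hnum (by positivity)
      _ = 2 ^ (n * K) := one_mul _
  exact_mod_cast hfin

end Pool.Agent.Helper26K9.MA
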