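import Pool.Agent.Helper89K9.MA.Stm4

/-!
# Project MA, version 2: the leaf CO2 (circuits of constant depth with arbitrary gates of bounded
fan-in whose inputs are functions with shallow decision trees)
-/

set_option autoImplicit false

namespace Pool.Agent.Helper26K9.MA

open Finset H568R2
open Pool.Agent.TH163.AC3 (HasDT HasDT.mono HasDT.cert hasDT_const switching')
open Pool.Agent.Helper89K9.MA (S_CO2)
open H746R3.Inv (Circuit Kind)

namespace Co2L

variable {I J : Type} [DecidableEq I]

/-- restriction of a decision tree -/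
lemma tree_rs (t : TH163.AC3.Tree I) (ρ : Restr I) :
    ∃ t' : TH163.AC3.Tree I, t'.depth ≤ t.depth ∧ ∀ x, t'.eval x = t.eval (ov ρ x) := by
  induction t with
  | leaf b => exact ⟨TH163.AC3.Tree.leaf b, le_refl _, fun x => rfl⟩
  | node i a b iha ihb =>
    obtain ⟨a', ha, ha'⟩ := iha
    obtain ⟨b', hb, hb'⟩ := ihb
    cases hρ : ρ i with
    | none =>
      refine ⟨TH163.AC3.Tree.node i a' b', ?_, ?_⟩
      · unfold TH163.AC3.Tree.depth
        have := max_le_max ha hb
        omega
      · intro x
        have h1 : ov ρ x i = x i := by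
          unfold ov
          rw [hρ]
          rfl
        simp only [TH163.AC3.Tree.eval, h1, ha', hb']
    | some c =>
      have h1 : ∀ x, ov ρ x i = c := by
        intro x
        unfold ov
        rw [hρ]
        rfl
      cases c with
      | true =>
        refine ⟨b', ?_, ?_⟩
        · show b'.depth ≤ max a.depth b.depth + 1
          have := le_max_right a.depth b.depth
          omega
        · intro x
          simp only [TH163.AC3.Tree.eval, h1, if_true, hb']
      | false =>
        refine ⟨a', ?_, ?_⟩
        · show a'.depth ≤ max a.depth b.depth + 1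
          have := le_max_left a.depth b.depth
          omega
        · intro x
          simp only [TH163.AC3.Tree.eval, h1, ha']
          simp

lemma hasDT_rs {s : ℕ} {f : (I → Bool) → Bool} (h : HasDT s f) (ρ : Restr I) :
    HasDT s (rs f ρ) := by
  obtain ⟨t, ht, he⟩ := h
  obtain ⟨t', ht', he'⟩ := tree_rs t ρ
  exact ⟨t', ht'.trans ht, fun x => by rw [he', he]; rfl⟩

lemma hasDT_xor {s : ℕ} {f : (I → Bool) → Bool} (h : HasDT s f) (b : Bool) :
    HasDT s (fun x => xor b (f x)) := by
  have key : ∀ t : TH163.AC3.Tree I, ∃ t' : TH163.AC3.Tree I, t'.depth = t.depth ∧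
      ∀ x, t'.eval x = xor b (t.eval x) := by
    intro t
    induction t with
    | leaf c => exact ⟨TH163.AC3.Tree.leaf (xor b c), rfl, fun x => rfl⟩
    | node i a c iha ihc =>
      obtain ⟨a', ha, ha'⟩ := iha
      obtain ⟨c', hc, hc'⟩ := ihc
      refine ⟨TH163.AC3.Tree.node i a' c', ?_, ?_⟩
      · unfold TH163.AC3.Tree.depth
        rw [ha, hc]
      · intro x
        simp only [TH163.AC3.Tree.eval]
        by_cases hx : x i = true
        · rw [if_pos hx, if_pos hx, hc']
        · rw [if_neg hx, if_neg hx, ha']
  obtain ⟨t, ht, he⟩ := h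
  obtain ⟨t', ht', he'⟩ := key t
  exact ⟨t', by omega, fun x => by rw [he', he]⟩

/-- a set of coordinates which determines the values of all functions of a list -/
lemma list_cert {α : Type} (F : α → (I → Bool) → Bool) (s : ℕ) (l : List α)
    (h : ∀ w ∈ l, HasDT s (F w)) (x : I → Bool) :
    ∃ A : Finset I, A.card ≤ l.length * s ∧
      ∀ y, (∀ i ∈ A, y i = x i) → ∀ w ∈ l, F w y = F w x := by
  induction l with
  | nil => exact ⟨∅, by simp, fun y _ w hw => absurd hw List.not_mem_nil⟩
  | cons a l ih =>
    obtain ⟨A, hA, hy⟩ := ih fun w hw => h w (List.mem_cons_of_mem _ hw)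
    obtain ⟨B, hB, hy'⟩ := (h a List.mem_cons_self).cert (F a x) x rfl
    refine ⟨A ∪ B, ?_, ?_⟩
    · refine (Finset.card_union_le _ _).trans ?_
      rw [List.length_cons, add_mul, one_mul]
      omega
    · intro y hxy w hw
      rcases List.mem_cons.mp hw with rfl | hw
      · exact hy' y fun i hi => hxy i (Finset.mem_union_right _ hi)
      · exact hy y (fun i hi => hxy i (Finset.mem_union_left _ hi)) w hw

/-- the run of the circuit -/
noncomputable def run (C : Circuit J Unit) (inp : J → (I → Bool) → Bool) (z : I → Bool) :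
    Fin C.G → Bool := (C.existsUnique_run 2 (fun j => inp j z)).choose

omit [DecidableEq I] in
lemma run_spec (C : Circuit J Unit) (inp : J → (I → Bool) → Bool) (z : I → Bool) :
    C.IsRun 2 (fun j => inp j z) (run C inp z) :=
  (C.existsUnique_run 2 (fun j => inp j z)).choose_spec.1

/-- all gates of level less than `j` have shallow decision trees under `ρ` -/
def Shallow (C : Circuit J Unit) (inp : J → (I → Bool) → Bool) (s j : ℕ) (ρ : Restr I) : Prop :=
  ∀ g : Fin C.G, C.level g < j → HasDT s (rs (fun z => run C inp z g) ρ)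

lemma wire_dt (C : Circuit J Unit) (inp : J → (I → Bool) → Bool) (hinp : ∀ j, HasDT 1 (inp j))
    {s j : ℕ} (hs : 1 ≤ s) {ρ : Restr I} (hG : Shallow C inp s j ρ)
    (w : Bool × (J ⊕ Fin C.G)) (hw : ∀ g, w.2 = Sum.inr g → C.level g < j) :
    HasDT s (rs (fun z => C.wire (fun j => inp j z) (run C inp z) w) ρ) := by
  obtain ⟨b, v⟩ := w
  cases v with
  | inl i =>
    exact hasDT_xor ((hasDT_rs (hinp i) ρ).mono hs) b
  | inr g =>
    exact hasDT_xor (hG g (hw g rfl)) b

lemma gate_cert (C : Circuit J Unit) (inp : J → (I → Bool) → Bool)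
    (hmod : ∀ g, C.kind g ≠ Kind.mod) {r s : ℕ} (hr : 1 ≤ r)
    (hwild : ∀ g, (C.kind g).IsWild → (C.wires g).length ≤ r) {ρ : Restr I} (g : Fin C.G)
    (hQ : ∀ w ∈ C.wires g,
      HasDT s (rs (fun z => C.wire (fun j => inp j z) (run C inp z) w) ρ)) :
    ∃ b, Cert (r * s) b (rs (fun z => run C inp z g) ρ) := by
  have hval : ∀ x, rs (fun z => run C inp z g) ρ x = (C.kind g).eval 2 ((C.wires g).map
      (fun w => rs (fun z => C.wire (fun j => inp j z) (run C inp z) w) ρ x)) := by
    intro x
    exact run_spec C inp (ov ρ x) g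
  have hsr : s ≤ r * s := by
    have := Nat.mul_le_mul_right s hr
    omega
  cases hg : C.kind g with
  | and =>
    refine ⟨false, ?_⟩
    intro x hx
    rw [hval, hg] at hx
    simp only [Kind.eval, List.all_map, List.all_eq_false, Function.comp_apply] at hx
    obtain ⟨w, hw, hv⟩ := hx
    have hv' : rs (fun z => C.wire (fun j => inp j z) (run C inp z) w) ρ x = false := by
      simpa using hv
    obtain ⟨A, hA, hy⟩ := (hQ w hw).cert false x hv'
    refine ⟨A, hA.trans hsr, fun y hxy => ?_⟩
    rw [hval, hg]
    simp only [Kind.eval, List.all_map, List.all_eq_false, Function.comp_apply]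
    exact ⟨w, hw, by have := hy y hxy; simpa using this⟩
  | or =>
    refine ⟨true, ?_⟩
    intro x hx
    rw [hval, hg] at hx
    simp only [Kind.eval, List.any_map, List.any_eq_true, Function.comp_apply] at hx
    obtain ⟨w, hw, hv⟩ := hx
    have hv' : rs (fun z => C.wire (fun j => inp j z) (run C inp z) w) ρ x = true := by
      simpa using hv
    obtain ⟨A, hA, hy⟩ := (hQ w hw).cert true x hv'
    refine ⟨A, hA.trans hsr, fun y hxy => ?_⟩
    rw [hval, hg]
    simp only [Kind.eval, List.any_map, List.any_eq_true, Function.comp_apply]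
    exact ⟨w, hw, by have := hy y hxy; simpa using this⟩
  | mod => exact absurd hg (hmod g)
  | wild φ =>
    refine ⟨true, ?_⟩
    intro x hx
    obtain ⟨A, hA, hy⟩ := list_cert (fun w => rs (fun z =>
      C.wire (fun j => inp j z) (run C inp z) w) ρ) s (C.wires g) hQ x
    have hlen : (C.wires g).length ≤ r := hwild g (by rw [hg]; trivial)
    refine ⟨A, hA.trans (Nat.mul_le_mul_right s hlen), fun y hxy => ?_⟩
    rw [← hx, hval, hval]
    congr 1
    exact List.map_congr_left fun w hw => hy y hxy w hw

variable [Fintype I]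

open Classical in
theorem collapse (C : Circuit J Unit) (inp : J → (I → Bool) → Bool)
    (hinp : ∀ j, HasDT 1 (inp j)) (hmod : ∀ g, C.kind g ≠ Kind.mod) {r : ℕ} (hr : 1 ≤ r)
    (hwild : ∀ g, (C.kind g).IsWild → (C.wires g).length ≤ r)
    {q : ℝ} (h0 : 0 ≤ q) (h1 : q ≤ 1 / 3) {s : ℕ} (hs : 1 ≤ s) :
    ∀ j : ℕ, Ex (wq (q ^ j)) (fun ρ : Restr I => if ¬ Shallow C inp s j ρ then (1 : ℝ) else 0) ≤
      j * C.G * (12 * (r * s) * q) ^ (s + 1) := by
  intro j
  induction j with
  | zero =>
    have hgood : ∀ ρ : Restr I, Shallow C inp s 0 ρ := by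
      intro ρ g hg
      omega
    simp only [hgood, not_true, if_false]
    unfold Ex
    simp
  | succ j ih =>
    rw [pow_succ, wq_cmp]
    set ε : ℝ := (12 * (r * s) * q) ^ (s + 1) with hε
    have hε0 : 0 ≤ ε := by positivity
    have hwj : ∀ a, 0 ≤ wq (q ^ j) a :=
      wq_nonneg (pow_nonneg h0 j) (pow_le_one₀ h0 (by linarith))
    have hw1 : ∀ a, 0 ≤ wq q a := wq_nonneg h0 (by linarith)
    have hin : ∀ ρ : Restr I, Ex (wq q) (fun τ : Restr I =>
        if ¬ Shallow C inp s (j + 1) (cmp ρ τ) then (1 : ℝ) else 0) ≤
        (if ¬ Shallow C inp s j ρ then (1 : ℝ) else 0) + C.G * ε := by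
      intro ρ
      by_cases hG : Shallow C inp s j ρ
      · simp only [hG, not_true, if_false, zero_add]
        have hpt : ∀ τ : Restr I, (if ¬ Shallow C inp s (j + 1) (cmp ρ τ) then (1 : ℝ) else 0) ≤
            ∑ g ∈ univ.filter (fun g : Fin C.G => C.level g < j + 1),
              (if ¬ HasDT s (rs (rs (fun z => run C inp z g) ρ) τ) then (1 : ℝ) else 0) := by
          intro τ
          have hnn : ∀ g ∈ univ.filter (fun g : Fin C.G => C.level g < j + 1),
              (0 : ℝ) ≤ (if ¬ HasDT s (rs (rs (fun z => run C inp z g) ρ) τ)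
                then (1 : ℝ) else 0) := by
            intro g _
            split_ifs <;> norm_num
          by_cases hGG : Shallow C inp s (j + 1) (cmp ρ τ)
          · simp only [hGG, not_true, if_false]
            exact Finset.sum_nonneg hnn
          · simp only [hGG, not_false_iff, if_true]
            have hex : ∃ g : Fin C.G, C.level g < j + 1 ∧
                ¬ HasDT s (rs (fun z => run C inp z g) (cmp ρ τ)) := by
              by_contra hcon
              apply hGG
              intro g hg
              by_contra hJ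
              exact hcon ⟨g, hg, hJ⟩
            obtain ⟨g, hg, hJ⟩ := hex
            rw [rs_cmp] at hJ
            refine le_trans ?_ (Finset.single_le_sum hnn
              (Finset.mem_filter.2 ⟨Finset.mem_univ g, hg⟩))
            rw [if_pos hJ]
        refine (Ex_mono hw1 hpt).trans ?_
        rw [Ex_sum]
        have hterm : ∀ g ∈ univ.filter (fun g : Fin C.G => C.level g < j + 1),
            Ex (wq q) (fun τ : Restr I => (if ¬ HasDT s
                (rs (rs (fun z => run C inp z g) ρ) τ) then (1 : ℝ) else 0)) ≤ ε := by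
          intro g hgi
          have hgd : C.level g < j + 1 := (Finset.mem_filter.1 hgi).2
          obtain ⟨b, hb⟩ := gate_cert C inp hmod (s := s) hr hwild (ρ := ρ) g (by
            rintro ⟨c, v⟩ hv
            apply wire_dt C inp hinp hs hG
            intro g' hg'
            have hg2 : v = Sum.inr g' := hg'
            subst hg2
            have := C.level_lt g c g' hv
            omega)
          have h2 := switching' (s := s) h0 h1 hb
          push_cast at h2
          exact h2
        refine (Finset.sum_le_card_nsmul _ _ _ hterm).trans ?_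
        rw [nsmul_eq_mul]
        apply mul_le_mul_of_nonneg_right _ hε0
        have : (univ.filter (fun g : Fin C.G => C.level g < j + 1)).card ≤ C.G := by
          refine (Finset.card_le_univ _).trans ?_
          simp
        exact_mod_cast this
      · simp only [hG, not_false_iff, if_true]
        have h2 : Ex (wq q) (fun τ : Restr I =>
            if ¬ Shallow C inp s (j + 1) (cmp ρ τ) then (1 : ℝ) else 0) ≤
            Ex (wq q) (fun _ : Restr I => (1 : ℝ)) := by
          apply Ex_mono hw1
          intro τ
          split_ifs <;> norm_num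
        rw [Ex_const (wq_sum q)] at h2
        have : 0 ≤ C.G * ε := by positivity
        linarith
    refine (Ex_mono hwj hin).trans ?_
    rw [Ex_add, Ex_const (wq_sum (q ^ j))]
    push_cast at ih ⊢
    linarith

end Co2L

open Co2L

open Classical in
theorem co2 : S_CO2 := by
  intro V J _ _ C inp hinp hmod r hr hwild q h0 h1 s d hs hd m hm
  refine le_trans ?_ (collapse C inp hinp hmod hr hwild h0 h1 hs d)
  apply Ex_mono (wq_nonneg (pow_nonneg h0 d) (pow_le_one₀ h0 (by linarith)))
  intro ρ
  by_cases hG : Shallow C inp s d ρ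
  · have hmr : m = fun z => C.wire (fun j => inp j z) (run C inp z) (C.out ()) := by
      funext z
      obtain ⟨v, hv, hv'⟩ := hm z
      have : v = run C inp z :=
        (C.existsUnique_run 2 (fun j => inp j z)).unique hv (run_spec C inp z)
      rw [← this]
      exact hv' ()
    have h2 : HasDT s (rs m ρ) := by
      rw [hmr]
      exact wire_dt C inp hinp hs hG (C.out ()) (fun g _ => hd g)
    rw [if_neg (not_not_intro h2), if_neg (not_not_intro hG)]
  · rw [if_pos hG]
    split_ifs <;> norm_num

end Pool.Agent.Helper26K9.MA
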