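import Pool.Agent.Helper89K9.MA.Stm2

/-!
# Project MA: the leaf COL (circuits of constant depth whose inputs are functions with shallow
decision trees)
-/

set_option autoImplicit false

namespace Pool.Agent.Helper26K9.MA

open Finset DomAC0 H568R2
open Pool.Agent.TH163.AC3 (HasDT HasDT.mono HasDT.cert hasDT_const switching')
open Pool.Agent.Helper89K9.MA (S_COL)

namespace ColL

variable {I J : Type} [Fintype I] [DecidableEq I]

omit [Fintype I] in
/-- restriction of a decision tree -/
lemma tree_rs (t : TH163.AC3.Tree I) (ρ : Restr I) :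
    ∃ t' : TH163.AC3.Tree I, t'.depth ≤ t.depth ∧ ∀ x, t'.eval x = t.eval (ov ρ x) := by
  induction t with
  | leaf b => exact ⟨TH163.AC3.Tree.leaf b, le_refl _, fun x => rfl⟩
  | node i a b iha ihb =>
    obtain ⟨a', ha, ha'⟩ := iha
    obtain ⟨b', hb, hb'⟩ := ihb
    cases hρ : ρ i with
    | none =>
      refine ⟨TH163.AC3.Tree.node i a' b', ?_, ?_⟩
      · unfold TH163.AC3.Tree.depth
        have := max_le_max ha hb
        omega
      · intro x
        have h1 : ov ρ x i = x i := by
          unfold ov
          rw [hρ]
          rfl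
        simp only [TH163.AC3.Tree.eval, h1, ha', hb']
    | some c =>
      have h1 : ∀ x, ov ρ x i = c := by
        intro x
        unfold ov
        rw [hρ]
        rfl
      cases c with
      | true =>
        refine ⟨b', ?_, ?_⟩
        · show b'.depth ≤ max a.depth b.depth + 1
          have := le_max_right a.depth b.depth
          omega
        · intro x
          simp only [TH163.AC3.Tree.eval, h1, if_true, hb']
      | false =>
        refine ⟨a', ?_, ?_⟩
        · show a'.depth ≤ max a.depth b.depth + 1
          have := le_max_left a.depth b.depth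
          omega
        · intro x
          simp only [TH163.AC3.Tree.eval, h1, ha']
          simp

omit [Fintype I] in
lemma hasDT_rs {s : ℕ} {f : (I → Bool) → Bool} (h : HasDT s f) (ρ : Restr I) :
    HasDT s (rs f ρ) := by
  obtain ⟨t, ht, he⟩ := h
  obtain ⟨t', ht', he'⟩ := tree_rs t ρ
  exact ⟨t', ht'.trans ht, fun x => by rw [he', he]; rfl⟩

/-- all gates of depth at most `j` have shallow decision trees under `ρ` -/
def Shallow (C : Circuit J) (inp : J → (I → Bool) → Bool) (s j : ℕ) (ρ : Restr I) : Prop :=
  ∀ g : Fin C.size, C.gateDepth g ≤ j → HasDT s (rs (fun z => C.gateVal (fun j => inp j z) g) ρ)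

omit [Fintype I] in
lemma node_dt (C : Circuit J) (inp : J → (I → Bool) → Bool) (hinp : ∀ j, HasDT 1 (inp j))
    {s j : ℕ} (hs : 1 ≤ s) {ρ : Restr I} (hG : Shallow C inp s j ρ)
    (v : J ⊕ Fin C.size) (hv : C.nodeDepth v ≤ j) :
    HasDT s (rs (fun z => C.nodeVal (fun j => inp j z) v) ρ) := by
  cases v with
  | inl i => exact (hasDT_rs (hinp i) ρ).mono hs
  | inr g => exact hG g hv

omit [Fintype I] in
lemma gate_cert' (C : Circuit J) (inp : J → (I → Bool) → Bool) {K : ℕ} {ρ : Restr I}
    (g : Fin C.size) (Q : List (J ⊕ Fin C.size))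
    (hQ : ∀ v ∈ Q, HasDT K (rs (fun z => C.nodeVal (fun j => inp j z) v) ρ)) :
    ∃ b, Cert K b (rs (fun z => gfun C g (fun j => inp j z) Q) ρ) := by
  cases hg : C.kind g with
  | and =>
    refine ⟨false, ?_⟩
    intro x hx
    simp only [rs, gfun, hg, decide_eq_false_iff_not, not_forall] at hx
    obtain ⟨v, hvQ, hv⟩ := hx
    have hv' : rs (fun z => C.nodeVal (fun j => inp j z) v) ρ x = false := by
      show C.nodeVal (fun j => inp j (ov ρ x)) v = false
      simpa using hv
    obtain ⟨A, hA, hy⟩ := (hQ v hvQ).cert false x hv'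
    refine ⟨A, hA, fun y hxy => ?_⟩
    simp only [rs, gfun, hg, decide_eq_false_iff_not, not_forall]
    exact ⟨v, hvQ, by have := hy y hxy; simpa [rs] using this⟩
  | or =>
    refine ⟨true, ?_⟩
    intro x hx
    simp only [rs, gfun, hg, decide_eq_true_eq] at hx
    obtain ⟨v, hvQ, hv⟩ := hx
    obtain ⟨A, hA, hy⟩ := (hQ v hvQ).cert true x hv
    refine ⟨A, hA, fun y hxy => ?_⟩
    simp only [rs, gfun, hg, decide_eq_true_eq]
    exact ⟨v, hvQ, hy y hxy⟩
  | not =>
    refine ⟨false, ?_⟩
    intro x hx
    simp only [rs, gfun, hg, decide_eq_false_iff_not, not_forall] at hx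
    obtain ⟨v, hvQ, hv⟩ := hx
    have hv' : rs (fun z => C.nodeVal (fun j => inp j z) v) ρ x = true := by
      show C.nodeVal (fun j => inp j (ov ρ x)) v = true
      simpa using hv
    obtain ⟨A, hA, hy⟩ := (hQ v hvQ).cert true x hv'
    refine ⟨A, hA, fun y hxy => ?_⟩
    simp only [rs, gfun, hg, decide_eq_false_iff_not, not_forall]
    exact ⟨v, hvQ, by have := hy y hxy; simpa [rs] using this⟩

open Classical in
theorem collapse' (C : Circuit J) (inp : J → (I → Bool) → Bool)
    (hinp : ∀ j, HasDT 1 (inp j)) {q : ℝ} (h0 : 0 ≤ q) (h1 : q ≤ 1 / 3) {s : ℕ} (hs : 1 ≤ s) :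
    ∀ j : ℕ, Ex (wq (q ^ j)) (fun ρ : Restr I => if ¬ Shallow C inp s j ρ then (1 : ℝ) else 0) ≤
      j * C.size * (12 * s * q) ^ (s + 1) := by
  intro j
  induction j with
  | zero =>
    have hgood : ∀ ρ : Restr I, Shallow C inp s 0 ρ := by
      intro ρ g hg
      have : 0 < C.gateDepth g := by rw [Circuit.gateDepth]; omega
      omega
    simp only [hgood, not_true, if_false]
    unfold Ex
    simp
  | succ j ih =>
    rw [pow_succ, wq_cmp]
    set ε : ℝ := (12 * s * q) ^ (s + 1) with hε
    have hε0 : 0 ≤ ε := by positivity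
    have hwj : ∀ a, 0 ≤ wq (q ^ j) a :=
      wq_nonneg (pow_nonneg h0 j) (pow_le_one₀ h0 (by linarith))
    have hw1 : ∀ a, 0 ≤ wq q a := wq_nonneg h0 (by linarith)
    have hin : ∀ ρ : Restr I, Ex (wq q) (fun τ : Restr I =>
        if ¬ Shallow C inp s (j + 1) (cmp ρ τ) then (1 : ℝ) else 0) ≤
        (if ¬ Shallow C inp s j ρ then (1 : ℝ) else 0) + C.size * ε := by
      intro ρ
      by_cases hG : Shallow C inp s j ρ
      · simp only [hG, not_true, if_false, zero_add]
        have hpt : ∀ τ : Restr I, (if ¬ Shallow C inp s (j + 1) (cmp ρ τ) then (1 : ℝ) else 0) ≤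
            ∑ g ∈ univ.filter (fun g : Fin C.size => C.gateDepth g ≤ j + 1),
              (if ¬ HasDT s (rs (rs (fun z => C.gateVal (fun j => inp j z) g) ρ) τ) then (1 : ℝ) else 0) := by
          intro τ
          have hnn : ∀ g ∈ univ.filter (fun g : Fin C.size => C.gateDepth g ≤ j + 1),
              (0 : ℝ) ≤ (if ¬ HasDT s (rs (rs (fun z => C.gateVal (fun j => inp j z) g) ρ) τ)
                then (1 : ℝ) else 0) := by
            intro g _
            split_ifs <;> norm_num
          by_cases hGG : Shallow C inp s (j + 1) (cmp ρ τ)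
          · simp only [hGG, not_true, if_false]
            exact Finset.sum_nonneg hnn
          · simp only [hGG, not_false_iff, if_true]
            have hex : ∃ g : Fin C.size, C.gateDepth g ≤ j + 1 ∧
                ¬ HasDT s (rs (fun z => C.gateVal (fun j => inp j z) g) (cmp ρ τ)) := by
              by_contra hcon
              apply hGG
              intro g hg
              by_contra hJ
              exact hcon ⟨g, hg, hJ⟩
            obtain ⟨g, hg, hJ⟩ := hex
            rw [rs_cmp] at hJ
            refine le_trans ?_ (Finset.single_le_sum hnn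
              (Finset.mem_filter.2 ⟨Finset.mem_univ g, hg⟩))
            rw [if_pos hJ]
        refine (Ex_mono hw1 hpt).trans ?_
        rw [Ex_sum]
        have hterm : ∀ g ∈ univ.filter (fun g : Fin C.size => C.gateDepth g ≤ j + 1),
            Ex (wq q) (fun τ : Restr I => (if ¬ HasDT s
                (rs (rs (fun z => C.gateVal (fun j => inp j z) g) ρ) τ) then (1 : ℝ) else 0)) ≤ ε := by
          intro g hgi
          have hgd : C.gateDepth g ≤ j + 1 := (Finset.mem_filter.1 hgi).2
          obtain ⟨b, hb⟩ := gate_cert' C inp (K := s) (ρ := ρ) g (C.preds g).toList (by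
            intro v hv
            apply node_dt C inp hinp hs hG
            have hvp : v ∈ C.preds g := by
              rwa [Finset.mem_toList] at hv
            have := depth_lt C g v hvp
            omega)
          have h2 : (fun z => C.gateVal (fun j => inp j z) g) = fun z => gfun C g (fun j => inp j z) (C.preds g).toList := by
            funext x
            exact gateVal_eq C _ g
          rw [← h2] at hb
          exact switching' h0 h1 hb
        refine (Finset.sum_le_card_nsmul _ _ _ hterm).trans ?_
        rw [nsmul_eq_mul]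
        apply mul_le_mul_of_nonneg_right _ hε0
        have : (univ.filter (fun g : Fin C.size => C.gateDepth g ≤ j + 1)).card ≤ C.size := by
          refine (Finset.card_le_univ _).trans ?_
          simp
        exact_mod_cast this
      · simp only [hG, not_false_iff, if_true]
        have h2 : Ex (wq q) (fun τ : Restr I =>
            if ¬ Shallow C inp s (j + 1) (cmp ρ τ) then (1 : ℝ) else 0) ≤
            Ex (wq q) (fun _ : Restr I => (1 : ℝ)) := by
          apply Ex_mono hw1
          intro τ
          split_ifs <;> norm_num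
        rw [Ex_const (wq_sum q)] at h2
        have : 0 ≤ C.size * ε := by positivity
        linarith
    refine (Ex_mono hwj hin).trans ?_
    rw [Ex_add, Ex_const (wq_sum (q ^ j))]
    push_cast at ih ⊢
    linarith

end ColL

open ColL

open Classical in
theorem col : S_COL := by
  intro V J _ _ C inp hinp q h0 h1 s d hs hd
  refine le_trans ?_ (collapse' C inp hinp h0 h1 hs d)
  apply Ex_mono (wq_nonneg (pow_nonneg h0 d) (pow_le_one₀ h0 (by linarith)))
  intro ρ
  by_cases hG : Shallow C inp s d ρ
  · have h2 : HasDT s (rs (fun z => C.eval fun j => inp j z) ρ) :=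
      node_dt C inp hinp hs hG C.output hd
    rw [if_neg (not_not_intro h2), if_neg (not_not_intro hG)]
  · rw [if_pos hG]
    split_ifs <;> norm_num

end Pool.Agent.Helper26K9.MA
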