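import Pool.Agent.Helper89K9.MA.Stm2
import Pool.Agent.TH163.AC2.Stars

/-!
# Project MA: the leaves ROW and PM4
-/

set_option autoImplicit false

namespace Pool.Agent.Helper26K9.MA

open Finset H568R2
open Pool.Agent.TH163.AC3 (HasDT hasDT_const)
open Pool.Agent.H699R2.OMV (Vec Mat)
open Pool.Agent.Helper89K9.MA (S_ROW S_PM1 S_PM4 bits pm Sep)

open Classical in
theorem row : S_ROW := by
  intro n K r p h0 h1 s0
  have hw := wq_nonneg h0 h1
  have hpt : ∀ ρ : Restr (Fin n × Fin K),
      (if (univ.filter fun c => ρ (r, c) = none).card < s0 then (1 : ℝ) else 0) ≤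
      2 ^ s0 * ∏ e : Fin n × Fin K, (if e.1 = r ∧ ρ e = none then (1 / 2 : ℝ) else 1) := by
    intro ρ
    have h2 : ∏ e : Fin n × Fin K, (if e.1 = r ∧ ρ e = none then (1 / 2 : ℝ) else 1) =
        (1 / 2) ^ (univ.filter fun c => ρ (r, c) = none).card := by
      rw [Fintype.prod_prod_type]
      rw [Finset.prod_eq_single r]
      · simp only [true_and]
        rw [Finset.prod_ite, Finset.prod_const, Finset.prod_const_one, mul_one]
      · intro b _ hb
        apply Finset.prod_eq_one
        intro c _
        rw [if_neg]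
        rintro ⟨h, _⟩
        exact hb h
      · intro h
        exact absurd (Finset.mem_univ r) h
    rw [h2]
    split_ifs with h3
    · rw [one_div, inv_pow, ← div_eq_mul_inv, le_div_iff₀ (by positivity), one_mul]
      exact pow_le_pow_right₀ (by norm_num) h3.le
    · positivity
  refine (Ex_mono hw hpt).trans ?_
  rw [Ex_smul]
  apply mul_le_mul_of_nonneg_left _ (by positivity)
  have h4 := Pool.Agent.TH163.AC2.Ex_prod_fun (I := Fin n × Fin K) (wq p) (fun e a =>
    if e.1 = r ∧ a = none then (1 / 2 : ℝ) else 1)
  refine (le_of_eq h4).trans ?_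
  rw [Fintype.prod_prod_type, Finset.prod_eq_single r]
  · have h5 : ∀ c : Fin K, ∑ a : Option Bool, wq p a *
        (if ((r, c) : Fin n × Fin K).1 = r ∧ a = none then (1 / 2 : ℝ) else 1) = 1 - p / 2 := by
      intro c
      simp only [Fintype.sum_option, Fintype.sum_bool, true_and, if_true]
      simp [wq]
      ring
    rw [Finset.prod_congr rfl (fun c _ => h5 c), Finset.prod_const, Finset.card_univ,
      Fintype.card_fin]
  · intro b _ hb
    apply Finset.prod_eq_one
    intro c _
    have h6 : ∀ a : Option Bool, (if ((b, c) : Fin n × Fin K).1 = r ∧ a = none then (1 / 2 : ℝ)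
        else 1) = 1 := by
      intro a
      rw [if_neg]
      rintro ⟨h, _⟩
      exact hb h
    simp only [h6, mul_one]
    exact wq_sum p
  · intro h
    exact absurd (Finset.mem_univ r) h

theorem pm4 : S_PM1 → S_PM4 := by
  intro hPM1 n K π h v hsep X c
  cases c with
  | inl c =>
    obtain ⟨r, j⟩ := c
    have h1 : ∀ z, bits h (pm π X z) (Sum.inl (r, j)) = decide (X r j +
        (π j).elim 0 (fun k => if z (r, k) then (1 : ZMod 2) else 0) = 1) := fun z => rfl
    cases hπ : π j with
    | none =>
      apply hasDT_const (decide (X r j = 1))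
      intro z
      rw [h1, hπ]
      simp
    | some k =>
      refine ⟨TH163.AC3.Tree.node (r, k) (TH163.AC3.Tree.leaf (decide (X r j + 0 = 1)))
        (TH163.AC3.Tree.leaf (decide (X r j + 1 = 1))), ?_, ?_⟩
      · simp [TH163.AC3.Tree.depth]
      · intro z
        show _ = bits h (pm π X z) (Sum.inl (r, j))
        rw [h1, hπ]
        show (if z (r, k) = true then decide (X r j + (1 : ZMod 2) = 1) else
          decide (X r j + (0 : ZMod 2) = 1)) =
            decide (X r j + (if z (r, k) = true then (1 : ZMod 2) else 0) = 1)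
        cases z (r, k) <;> simp
  | inr c =>
    apply hasDT_const (decide (X.mulVec (h.get c.1) c.2 = 1))
    intro z
    show decide ((pm π X z).mulVec (h.get c.1) c.2 = 1) = _
    rw [(hPM1 n K π h v hsep X z).1 (h.get c.1) (List.get_mem _ _)]

end Pool.Agent.Helper26K9.MA
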