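import Pool.Agent.Helper89K9.MA.Stm

/-!
# Project MA: the leaf TP
-/

set_option autoImplicit false

namespace Pool.Agent.Helper26K9.MA

open Finset
open H746R3.Inv (LD bK const_mem one_mem mul_mem prod_mem')
open Pool.Agent.H699R2.OMV (Prog Vec Mat)
open Pool.Agent.Helper89K9.MA (S_TP)

namespace TpL

lemma prod_ind {F V : Type} [Field F] {w : ℕ} (P : Fin w → (V → Bool) → F) (x : V → Bool)
    (y c : Fin w → Bool) (h : ∀ i, P i x = bK (y i)) :
    (∏ i, (if c i then P i else 1 - P i)) x = if c = y then (1 : F) else 0 := by
  rw [Finset.prod_apply]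
  have h1 : ∀ i ∈ (univ : Finset (Fin w)), (if c i then P i else 1 - P i) x =
      if c i = y i then (1 : F) else 0 := by
    intro i _
    cases hc : c i <;> cases hy : y i <;> simp [h i, hy]
  rw [Finset.prod_congr rfl h1, Finset.prod_ite_zero]
  simp [funext_iff]

end TpL

theorem tp : S_TP := by
  intro F V A O _ _ _ w D τ m P hP g T
  induction T generalizing τ with
  | done o =>
    exact ⟨fun _ => g o, const_mem _ _, fun x _ => by simp [Prog.addrs, Prog.out]⟩
  | probe a k ih =>
    cases τ with
    | zero =>
      exact ⟨0, Submodule.zero_mem _, fun x _ => by simp [Prog.addrs]⟩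
    | succ τ =>
      choose Q hQ hQx using fun c => ih c τ
      refine ⟨∑ c : Fin w → Bool, (∏ i, (if c i then P a i else 1 - P a i)) * Q c, ?_, ?_⟩
      · apply Submodule.sum_mem
        intro c _
        have h1 := mul_mem (prod_mem' univ (fun i => if c i then P a i else 1 - P a i)
          (fun _ => D) (by
            intro i _
            split_ifs
            · exact hP a i
            · exact Submodule.sub_mem _ (one_mem _) (hP a i))) (hQ c)
        rw [sum_const, card_univ, Fintype.card_fin, smul_eq_mul] at h1
        rwa [show w * D + τ * (w * D) = (τ + 1) * (w * D) by ring] at h1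
      · intro x hx
        rw [Finset.sum_apply, Finset.sum_eq_single (m x a)]
        · rw [Pi.mul_apply, TpL.prod_ind (P a) x (m x a) (m x a) (hx a), if_pos rfl,
            one_mul, hQx (m x a) x hx]
          simp [Prog.addrs, Prog.out]
        · intro c _ hc
          rw [Pi.mul_apply, TpL.prod_ind (P a) x (m x a) c (hx a), if_neg hc, zero_mul]
        · intro h
          exact absurd (mem_univ _) h

end Pool.Agent.Helper26K9.MA
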